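import Pool.Agent.Y982.UB.Fin

/-!
# MP_28b826_pr, Q2: the mean occupation time at criticality

For every subcritical update family of the square lattice, the mean occupation time of the
origin at the critical probability is infinite as soon as the critical probability is less
than one, and it is zero in the degenerate case where the critical probability is one; the
degenerate case is the case where some finite set cannot be filled from its complement.
-/

set_option autoImplicit false

open MeasureTheory Set
open scoped ENNReal
open Pool.Agent.Y982.UB

namespace Pool.Agent.Results.MP_28b826_pr.InfiniteMeanAtCriticality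

/-- Let `U` be a subcritical update family, `pc U` its critical probability and `T U` the
occupation time of the origin.  Then: `pc U < 1` if and only if the complement of every finite
set percolates; if `pc U < 1` then `P_{pc}(T > n) ≥ c / n` for some `c > 0` and all `n ≥ 1`, and
the mean of `T` under `P_{pc}` is infinite; if `pc U = 1` then the mean of `T` under `P_{pc}` is
zero. -/
theorem result (U : Finset (Finset Site)) (_hU : IsUpdateFamily U) (hs : Subcritical U) :
    (pc U < 1 ↔ ∀ F : Set Site, F.Finite → clos U Fᶜ = univ) ∧
    (pc U < 1 → ∃ c : ℝ, 0 < c ∧ ∀ n : ℕ, 1 ≤ n →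
      ENNReal.ofReal (c / n) ≤ P (pc U) {ω | (n : ℕ∞) < T U ω}) ∧
    (pc U < 1 → ∫⁻ ω, (T U ω : ℝ≥0∞) ∂(P (pc U)) = ⊤) ∧
    (pc U = 1 → ∫⁻ ω, (T U ω : ℝ≥0∞) ∂(P (pc U)) = 0) :=
  main hs

end Pool.Agent.Results.MP_28b826_pr.InfiniteMeanAtCriticality
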